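import Mathlib
import Pool.Agent.W743.GV.Stm

/-! Part GV-INV: the implicit function theorem through the inverse function theorem. -/

open Set
open scoped ContDiff

namespace Pool.Agent.W922.GV

open Pool.Agent.W743.GV

noncomputable section

/-- the map replacing the third coordinate by the value of L -/
def lin (L : E3 →L[ℝ] ℝ) (h : L (EuclideanSpace.single 2 1) ≠ 0) : E3 ≃ₗ[ℝ] E3 where
  toFun v := !₂[v 0, v 1, L v]
  map_add' v w := by
    ext i
    fin_cases i <;> simp
  map_smul' c v := by
    ext i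
    fin_cases i <;> simp
  invFun w := !₂[w 0, w 1, (w 2 - L (EuclideanSpace.single 0 1) * w 0
    - L (EuclideanSpace.single 1 1) * w 1) / L (EuclideanSpace.single 2 1)]
  left_inv v := by
    have hv : v = v 0 • EuclideanSpace.single 0 1 + v 1 • EuclideanSpace.single 1 1
        + v 2 • EuclideanSpace.single 2 1 := by
      ext i
      fin_cases i <;> simp
    have hL : L v = v 0 * L (EuclideanSpace.single 0 1) + v 1 * L (EuclideanSpace.single 1 1)
        + v 2 * L (EuclideanSpace.single 2 1) := by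
      conv_lhs => rw [hv]
      simp only [map_add, map_smul, smul_eq_mul]
    ext i
    fin_cases i
    · simp
    · simp
    · simp only [Fin.reduceFinMk, Matrix.cons_val]
      rw [hL]
      field_simp
      ring
  right_inv w := by
    have hv : (!₂[w 0, w 1, (w 2 - L (EuclideanSpace.single 0 1) * w 0
        - L (EuclideanSpace.single 1 1) * w 1) / L (EuclideanSpace.single 2 1)] : E3)
        = w 0 • EuclideanSpace.single 0 1 + w 1 • EuclideanSpace.single 1 1
        + ((w 2 - L (EuclideanSpace.single 0 1) * w 0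
        - L (EuclideanSpace.single 1 1) * w 1) / L (EuclideanSpace.single 2 1)) •
          EuclideanSpace.single 2 1 := by
      ext i
      fin_cases i <;> simp
    ext i
    fin_cases i
    · simp
    · simp
    · simp only [Fin.reduceFinMk, Matrix.cons_val]
      rw [hv]
      simp only [map_add, map_smul, smul_eq_mul]
      field_simp
      ring

theorem lin_apply (L : E3 →L[ℝ] ℝ) (h : L (EuclideanSpace.single 2 1) ≠ 0) (v : E3) :
    (lin L h).toContinuousLinearEquiv v = !₂[v 0, v 1, L v] := rfl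

/-- the map replacing the third coordinate by the value of g -/
def Psi (g : E3 → ℝ) (z : E3) : E3 := !₂[z 0, z 1, g z]

theorem Psi_cd {g : E3 → ℝ} {z : E3} (hg : ContDiffAt ℝ ∞ g z) : ContDiffAt ℝ ∞ (Psi g) z := by
  rw [contDiffAt_euclidean]
  intro i
  fin_cases i
  · simp only [Psi, Fin.zero_eta, PiLp.toLp_apply, Matrix.cons_val]
    fun_prop
  · simp only [Psi, Fin.mk_one, PiLp.toLp_apply, Matrix.cons_val]
    fun_prop
  · simpa only [Psi, Fin.reduceFinMk, PiLp.toLp_apply, Matrix.cons_val] using hg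

theorem Psi_fd {g : E3 → ℝ} {z : E3} (hg : DifferentiableAt ℝ g z)
    (h : fderiv ℝ g z (EuclideanSpace.single 2 1) ≠ 0) :
    HasFDerivAt (Psi g) ((lin (fderiv ℝ g z) h).toContinuousLinearEquiv : E3 →L[ℝ] E3) z := by
  rw [← hasFDerivWithinAt_univ, hasFDerivWithinAt_euclidean]
  intro i
  rw [hasFDerivWithinAt_univ]
  fin_cases i
  · have h0 : HasFDerivAt (fun x : E3 => x 0) (EuclideanSpace.proj 0 : E3 →L[ℝ] ℝ) z :=
      (EuclideanSpace.proj 0 : E3 →L[ℝ] ℝ).hasFDerivAt
    convert! h0 using 1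
  · have h0 : HasFDerivAt (fun x : E3 => x 1) (EuclideanSpace.proj 1 : E3 →L[ℝ] ℝ) z :=
      (EuclideanSpace.proj 1 : E3 →L[ℝ] ℝ).hasFDerivAt
    convert! h0 using 1
  · have h0 : HasFDerivAt g (fderiv ℝ g z) z := hg.hasFDerivAt
    convert! h0 using 1

theorem t_INV : S_INV := by
  intro O g y hO hy hg hd
  have hcd : ∀ z ∈ O, ContDiffAt ℝ ∞ g z := fun z hz => hg.contDiffAt (hO.mem_nhds hz)
  have hne : (∞ : WithTop ℕ∞) ≠ 0 := by simp
  have hdf : ∀ z ∈ O, DifferentiableAt ℝ g z := fun z hz => (hcd z hz).differentiableAt hne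
  have hcf : ContinuousOn (fun z => fderiv ℝ g z (EuclideanSpace.single 2 1)) O :=
    (hg.continuousOn_fderiv_of_isOpen hO (by simp)).clm_apply continuousOn_const
  have hS : IsOpen (O ∩ (fun z => fderiv ℝ g z (EuclideanSpace.single 2 1)) ⁻¹' {0}ᶜ) :=
    hcf.isOpen_inter_preimage hO isOpen_compl_singleton
  set S := O ∩ (fun z => fderiv ℝ g z (EuclideanSpace.single 2 1)) ⁻¹' {0}ᶜ with hSdef
  have hyS : y ∈ S := ⟨hy, hd⟩
  have hfy := Psi_fd (hdf y hy) hd
  have hcy : ContDiffAt ℝ ∞ (Psi g) y := Psi_cd (hcd y hy)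
  set H := hcy.toOpenPartialHomeomorph (Psi g) hfy hne with hH
  have hHc : (H : E3 → E3) = Psi g := rfl
  have hys : y ∈ H.source := hcy.mem_toOpenPartialHomeomorph_source hfy hne
  have hyt : Psi g y ∈ H.target := hcy.image_mem_toOpenPartialHomeomorph_target hfy hne
  have hinv : H.symm (Psi g y) = y := H.left_inv hys
  have hV : IsOpen (H.target ∩ H.symm ⁻¹' S) := H.symm.isOpen_inter_preimage hS
  have hyV : Psi g y ∈ H.target ∩ H.symm ⁻¹' S := ⟨hyt, by rw [mem_preimage, hinv]; exact hyS⟩
  obtain ⟨r, hr, hball⟩ := Metric.isOpen_iff.1 hV _ hyV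
  have hkey : ∀ x ∈ Metric.ball (Psi g y) r, Psi g (H.symm x) = x := fun x hx =>
    H.right_inv (hball hx).1
  refine ⟨Metric.ball (Psi g y) r, fun x => (H.symm x) 2, Metric.isOpen_ball,
    ⟨⟨_, Metric.mem_ball_self hr⟩, (convex_ball _ _).isPreconnected⟩, Metric.mem_ball_self hr, ?_, ?_, ?_⟩
  · change (H.symm (Psi g y)) 2 = y 2
    rw [hinv]
  · intro x hx
    have hx2 := (hball hx).2
    have hz : H.symm x ∈ O := hx2.1
    have hcs : ContDiffAt ℝ ∞ H.symm x :=
      H.contDiffAt_symm (hball hx).1 (Psi_fd (hdf _ hz) hx2.2) (Psi_cd (hcd _ hz))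
    exact ((contDiffAt_euclidean.1 hcs) 2).contDiffWithinAt
  · intro x hx
    have h1 := hkey x hx
    have e0 : (H.symm x) 0 = x 0 := by
      have := congrArg (fun w : E3 => w 0) h1
      simpa [Psi] using this
    have e1 : (H.symm x) 1 = x 1 := by
      have := congrArg (fun w : E3 => w 1) h1
      simpa [Psi] using this
    have e2 : g (H.symm x) = x 2 := by
      have := congrArg (fun w : E3 => w 2) h1
      simpa [Psi] using this
    have hform : (!₂[x 0, x 1, (H.symm x) 2] : E3) = H.symm x := by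
      ext i
      fin_cases i
      · simpa using e0.symm
      · simpa using e1.symm
      · simp
    rw [hform]
    exact ⟨(hball hx).2.1, e2⟩

end

end Pool.Agent.W922.GV
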